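import Pool.Agent.K1H27.TP.Stm

/-! The distribution function of a unimodal density (project TP, piece CHORD). -/

set_option autoImplicit false

namespace Pool.Agent.K1H68.TP

open MeasureTheory Pool.Agent.K1H27.TP

theorem int_le {M : ℝ → ℝ} (hM : Continuous M) {x y C : ℝ} (hxy : x ≤ y)
    (h : ∀ s ∈ Set.Icc x y, M s ≤ C) : ∫ s in x..y, M s ≤ C * (y - x) := by
  have h1 : ∫ s in x..y, M s ≤ ∫ _s in x..y, C :=
    intervalIntegral.integral_mono_on hxy (hM.intervalIntegrable _ _)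
      intervalIntegrable_const h
  rw [intervalIntegral.integral_const, smul_eq_mul] at h1
  linarith

theorem le_int {M : ℝ → ℝ} (hM : Continuous M) {x y C : ℝ} (hxy : x ≤ y)
    (h : ∀ s ∈ Set.Icc x y, C ≤ M s) : C * (y - x) ≤ ∫ s in x..y, M s := by
  have h1 : ∫ _s in x..y, C ≤ ∫ s in x..y, M s :=
    intervalIntegral.integral_mono_on hxy intervalIntegrable_const
      (hM.intervalIntegrable _ _) h
  rw [intervalIntegral.integral_const, smul_eq_mul] at h1
  linarith

theorem t_CHORD : S_CHORD := by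
  intro a b M hab hM hM0 hq
  obtain ⟨c, hc, hmax⟩ := isCompact_Icc.exists_isMaxOn (Set.nonempty_Icc.2 hab.le)
    hM.continuousOn
  have hmax' : ∀ x ∈ Set.Icc a b, M x ≤ M c := fun x hx => hmax hx
  have hmono : ∀ x y, a ≤ x → x ≤ y → y ≤ c → M x ≤ M y := by
    intro x y hx hxy hy
    rcases hxy.eq_or_lt with rfl | h1
    · exact le_refl _
    · rcases hy.eq_or_lt with rfl | h2
      · exact hmax' x ⟨hx, h1.le.trans hc.2⟩
      · have h3 := hq x y c hx h1 h2 hc.2
        rwa [min_eq_left (hmax' x ⟨hx, (h1.trans h2).le.trans hc.2⟩)] at h3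
  have hanti : ∀ x y, c ≤ x → x ≤ y → y ≤ b → M y ≤ M x := by
    intro x y hx hxy hy
    rcases hxy.eq_or_lt with rfl | h1
    · exact le_refl _
    · rcases hx.eq_or_lt with rfl | h2
      · exact hmax' y ⟨hc.1.trans h1.le, hy⟩
      · have h3 := hq c x y hc.1 h2 h1 hy
        rwa [min_eq_right (hmax' y ⟨hc.1.trans (h2.trans h1).le, hy⟩)] at h3
  refine ⟨c, hc, ?_, ?_⟩
  · intro α hα t ht
    have h1 : ∫ s in a..α, M s = (∫ s in a..t, M s) + ∫ s in t..α, M s :=
      (intervalIntegral.integral_add_adjacent_intervals (hM.intervalIntegrable _ _)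
        (hM.intervalIntegrable _ _)).symm
    have h2 : ∫ s in a..t, M s ≤ M t * (t - a) :=
      int_le hM ht.1 fun s hs => hmono s t hs.1 hs.2 (ht.2.trans hα.2)
    have h3 : M t * (α - t) ≤ ∫ s in t..α, M s :=
      le_int hM ht.2 fun s hs => hmono t s ht.1 hs.1 (hs.2.trans hα.2)
    have h4 : 0 ≤ t - a := sub_nonneg.2 ht.1
    have h5 : 0 ≤ α - t := sub_nonneg.2 ht.2
    rw [h1]
    nlinarith [mul_le_mul_of_nonneg_right h2 h5, mul_le_mul_of_nonneg_left h3 h4]
  · intro β hβ t ht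
    have h1 : ∫ s in β..b, M s = (∫ s in β..t, M s) + ∫ s in t..b, M s :=
      (intervalIntegral.integral_add_adjacent_intervals (hM.intervalIntegrable _ _)
        (hM.intervalIntegrable _ _)).symm
    have h2 : ∫ s in t..b, M s ≤ M t * (b - t) :=
      int_le hM ht.2 fun s hs => hanti t s (hβ.1.trans ht.1) hs.1 hs.2
    have h3 : M t * (t - β) ≤ ∫ s in β..t, M s :=
      le_int hM ht.1 fun s hs => hanti s t (hβ.1.trans hs.1) hs.2 ht.2
    have h4 : 0 ≤ b - t := sub_nonneg.2 ht.2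
    have h5 : 0 ≤ t - β := sub_nonneg.2 ht.1
    rw [h1]
    nlinarith [mul_le_mul_of_nonneg_right h2 h5, mul_le_mul_of_nonneg_left h3 h4]

end Pool.Agent.K1H68.TP

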